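import Pool.Agent.R172.Rotor

/-!
# MP_c2e62a_gt: every rotor in a regular triangular prism is a ball

Goldberg's question: is there a non-spherical convex body in `ℝ³` that can be placed, in every
orientation, inside the infinite prism over an equilateral triangle so that it touches all three
faces?  The answer is no.
-/

namespace Pool.Agent.Results.MP_c2e62a_gt.TriangularPrismRotor

open Set Metric
open scoped RealInnerProductSpace

/-- Euclidean three-space. -/
abbrev E3 := EuclideanSpace ℝ (Fin 3)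

/-- A convex body: a compact convex set with nonempty interior. -/
def IsConvexBody (K : Set E3) : Prop :=
  Convex ℝ K ∧ IsCompact K ∧ (interior K).Nonempty

/-- `P 0`, `P 1`, `P 2` are the vertices of an equilateral triangle in the plane `z = 0`. -/
def IsEquilateral (P : Fin 3 → E3) : Prop :=
  (∀ i, P i 2 = 0) ∧ ∃ s : ℝ, 0 < s ∧ ∀ i j, i ≠ j → dist (P i) (P j) = s

/-- The vertical cylinder `T × ℝ` over a set `T`: all points having the same first two
coordinates as some point of `T`. -/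
def cylinder (T : Set E3) : Set E3 := {x | ∃ y ∈ T, x 0 = y 0 ∧ x 1 = y 1}

/-- The infinite prism over the triangle with vertices `P 0, P 1, P 2`. -/
def prism (P : Fin 3 → E3) : Set E3 := cylinder (convexHull ℝ (range P))

/-- The face of the prism over the edge opposite to the vertex `P i`. -/
def face (P : Fin 3 → E3) (i : Fin 3) : Set E3 := cylinder (segment ℝ (P (i + 1)) (P (i + 2)))

/-- Members of `SO(3)`: linear isometries of `ℝ³` with determinant `1`. -/
def IsRotation (ρ : E3 ≃ₗᵢ[ℝ] E3) : Prop :=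
  LinearMap.det (ρ.toLinearEquiv : E3 →ₗ[ℝ] E3) = 1

/-- `K` is a rotor in the prism over the triangle `P`: for every rotation `ρ` some translate
of `ρ K` lies in the prism and meets each of the three faces. -/
def IsRotor (P : Fin 3 → E3) (K : Set E3) : Prop :=
  ∀ ρ : E3 ≃ₗᵢ[ℝ] E3, IsRotation ρ → ∃ t : E3,
    (fun x => ρ x + t) '' K ⊆ prism P ∧
      ∀ i, ((fun x => ρ x + t) '' K ∩ face P i).Nonempty

/-! ### Rotations -/

theorem det_reflection_pm (v : E3) :
    LinearMap.det (((ℝ ∙ v)ᗮ.reflection).toLinearEquiv : E3 →ₗ[ℝ] E3) = 1 ∨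
    LinearMap.det (((ℝ ∙ v)ᗮ.reflection).toLinearEquiv : E3 →ₗ[ℝ] E3) = -1 := by
  have := Submodule.det_reflection (𝕜 := ℝ) (K := (ℝ ∙ v)ᗮ)
  have h2 : LinearMap.det (((ℝ ∙ v)ᗮ.reflection).toLinearEquiv : E3 →ₗ[ℝ] E3)
      = (-1 : ℝ) ^ Module.finrank ℝ ((ℝ ∙ v)ᗮᗮ : Submodule ℝ E3) := this
  rw [h2]
  exact neg_one_pow_eq_or ℝ _

theorem det_reflection_ne {v : E3} (hv : v ≠ 0) :
    LinearMap.det (((ℝ ∙ v)ᗮ.reflection).toLinearEquiv : E3 →ₗ[ℝ] E3) = -1 := by
  have := Submodule.det_reflection (𝕜 := ℝ) (K := (ℝ ∙ v)ᗮ)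
  have h2 : LinearMap.det (((ℝ ∙ v)ᗮ.reflection).toLinearEquiv : E3 →ₗ[ℝ] E3)
      = (-1 : ℝ) ^ Module.finrank ℝ ((ℝ ∙ v)ᗮᗮ : Submodule ℝ E3) := this
  rw [h2, Submodule.orthogonal_orthogonal, finrank_span_singleton hv]
  norm_num

theorem det_trans (A C : E3 ≃ₗᵢ[ℝ] E3) :
    LinearMap.det ((A.trans C).toLinearEquiv : E3 →ₗ[ℝ] E3) =
      LinearMap.det (C.toLinearEquiv : E3 →ₗ[ℝ] E3) *
        LinearMap.det (A.toLinearEquiv : E3 →ₗ[ℝ] E3) := by
  rw [← LinearMap.det_comp]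
  rfl

theorem reflection_fix {v w : E3} (h : ⟪v, w⟫ = 0) : (ℝ ∙ v)ᗮ.reflection w = w := by
  rw [Submodule.reflection_eq_self_iff, Submodule.mem_orthogonal_singleton_iff_inner_right]
  exact h

theorem exists_rotation {u v n m : E3} (hu : ‖u‖ = 1) (hv : ‖v‖ = 1) (hn : ‖n‖ = 1)
    (hm : ‖m‖ = 1) (huv : ⟪u, v⟫ = ⟪n, m⟫) (hn2 : n 2 = 0) (hm2 : m 2 = 0) :
    ∃ ρ : E3 ≃ₗᵢ[ℝ] E3, IsRotation ρ ∧ ρ u = n ∧ ρ v = m := by
  set A : E3 ≃ₗᵢ[ℝ] E3 := (ℝ ∙ (u - n))ᗮ.reflection with hA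
  have hAu : A u = n := Submodule.reflection_sub (by rw [hu, hn])
  set v' := A v with hv'
  have hv'n : ‖v'‖ = 1 := by rw [hv', A.norm_map, hv]
  have hin : ⟪n, v'⟫ = ⟪n, m⟫ := by rw [← huv, hv', ← hAu, A.inner_map_map]
  set C : E3 ≃ₗᵢ[ℝ] E3 := (ℝ ∙ (v' - m))ᗮ.reflection with hC
  have hCv : C v' = m := Submodule.reflection_sub (by rw [hv'n, hm])
  have hCn : C n = n := by
    refine reflection_fix ?_
    rw [real_inner_comm, inner_sub_right, hin, sub_self]
  set S : E3 ≃ₗᵢ[ℝ] E3 := (ℝ ∙ Pool.Agent.R172.Rotor.e3)ᗮ.reflection with hS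
  have hSf : ∀ w : E3, w 2 = 0 → S w = w := by
    intro w hw
    refine reflection_fix ?_
    rw [real_inner_comm, Pool.Agent.R172.Rotor.inner_e3, hw]
  have he3 : Pool.Agent.R172.Rotor.e3 ≠ 0 := by
    intro h
    have := Pool.Agent.R172.Rotor.norm_e3
    rw [h, norm_zero] at this
    norm_num at this
  have hdS := det_reflection_ne he3
  have hdA := det_reflection_pm (u - n)
  have hdC := det_reflection_pm (v' - m)
  have hpm : LinearMap.det ((A.trans C).toLinearEquiv : E3 →ₗ[ℝ] E3) = 1 ∨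
      LinearMap.det ((A.trans C).toLinearEquiv : E3 →ₗ[ℝ] E3) = -1 := by
    rw [det_trans]
    rcases hdA with h1 | h1 <;> rcases hdC with h2 | h2 <;> rw [hA, hC, h1, h2] <;> norm_num
  have e1 : (A.trans C) u = n := by
    rw [LinearIsometryEquiv.trans_apply, hAu, hCn]
  have e2 : (A.trans C) v = m := by
    rw [LinearIsometryEquiv.trans_apply, ← hv', hCv]
  rcases hpm with h | h
  · exact ⟨A.trans C, h, e1, e2⟩
  · refine ⟨(A.trans C).trans S, ?_, ?_, ?_⟩
    · unfold IsRotation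
      rw [det_trans, h, hdS]
      norm_num
    · rw [LinearIsometryEquiv.trans_apply, e1, hSf n hn2]
    · rw [LinearIsometryEquiv.trans_apply, e2, hSf m hm2]

/-! ### Support function -/

/-- The support function of `K`. -/
noncomputable def supp (K : Set E3) (u : E3) : ℝ := sSup ((fun x => ⟪x, u⟫) '' K)

theorem supp_spec {K : Set E3} (hK : IsCompact K) (hne : K.Nonempty) (u : E3) :
    (∃ x ∈ K, supp K u = ⟪x, u⟫) ∧ ∀ y ∈ K, ⟪y, u⟫ ≤ supp K u := by
  have hc : ContinuousOn (fun x : E3 => ⟪x, u⟫) K := by fun_prop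
  have hcomp : IsCompact ((fun x : E3 => ⟪x, u⟫) '' K) := hK.image_of_continuousOn hc
  constructor
  · obtain ⟨x, hx, hxe⟩ := hcomp.sSup_mem (hne.image _)
    exact ⟨x, hx, hxe.symm⟩
  · intro y hy
    exact le_csSup hcomp.bddAbove (mem_image_of_mem _ hy)

theorem supp_eq {K : Set E3} (hK : IsCompact K) (hne : K.Nonempty) {u : E3} {c : ℝ}
    (h1 : ∀ y ∈ K, ⟪y, u⟫ ≤ c) (h2 : ∃ x ∈ K, ⟪x, u⟫ = c) : supp K u = c := by
  obtain ⟨⟨x, hx, hxe⟩, hle⟩ := supp_spec hK hne u
  obtain ⟨y, hy, hye⟩ := h2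
  refine le_antisymm (hxe ▸ h1 x hx) (hye ▸ hle y hy)

theorem supp_homog {K : Set E3} (hK : IsCompact K) (hne : K.Nonempty) (t : ℝ) (ht : 0 ≤ t)
    (u : E3) : supp K (t • u) = t * supp K u := by
  obtain ⟨⟨x, hx, hxe⟩, hle⟩ := supp_spec hK hne u
  refine supp_eq hK hne ?_ ⟨x, hx, ?_⟩
  · intro y hy
    rw [real_inner_smul_right]
    exact mul_le_mul_of_nonneg_left (hle y hy) ht
  · rw [real_inner_smul_right, hxe]

theorem supp_continuous {K : Set E3} (hK : IsCompact K) (hne : K.Nonempty) :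
    Continuous (supp K) := by
  obtain ⟨R, hR⟩ := hK.isBounded.exists_norm_le
  have hR0 : 0 ≤ R := by
    obtain ⟨x, hx⟩ := hne
    exact (norm_nonneg x).trans (hR x hx)
  refine (LipschitzWith.of_le_add_mul (Real.toNNReal R) fun u v => ?_).continuous
  obtain ⟨⟨x, hx, hxe⟩, -⟩ := supp_spec hK hne u
  obtain ⟨-, hle⟩ := supp_spec hK hne v
  have h1 := hle x hx
  have h2 : ⟪x, u⟫ = ⟪x, v⟫ + ⟪x, u - v⟫ := by rw [inner_sub_right]; ring
  have h3 : ⟪x, u - v⟫ ≤ ‖x‖ * ‖u - v‖ := real_inner_le_norm _ _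
  have h4 : ‖x‖ * ‖u - v‖ ≤ R * ‖u - v‖ := mul_le_mul_of_nonneg_right (hR x hx) (norm_nonneg _)
  rw [hxe, h2, dist_eq_norm]
  rw [Real.coe_toNNReal R hR0]
  linarith

/-- A compact convex set whose support function is that of a ball is a ball. -/
theorem eq_closedBall {K : Set E3} (hconv : Convex ℝ K) (hK : IsCompact K) (hne : K.Nonempty)
    {r : ℝ} {a : E3} (h : ∀ u, supp K u = r * ‖u‖ + ⟪a, u⟫) : K = closedBall a r := by
  ext x
  rw [mem_closedBall, dist_eq_norm]
  constructor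
  · intro hx
    obtain ⟨-, hle⟩ := supp_spec hK hne (x - a)
    have h1 := hle x hx
    rw [h] at h1
    have h2 : ⟪x, x - a⟫ - ⟪a, x - a⟫ = ‖x - a‖ ^ 2 := by
      rw [← inner_sub_left, real_inner_self_eq_norm_sq]
    have h3 : ‖x - a‖ ^ 2 ≤ r * ‖x - a‖ := by linarith
    rcases eq_or_lt_of_le (norm_nonneg (x - a)) with h0 | h0
    · -- `x = a`; then use any nonzero direction
      rw [← h0]
      have e1 := h Pool.Agent.R172.Rotor.e3
      have e2 := h (-Pool.Agent.R172.Rotor.e3)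
      obtain ⟨-, hle1⟩ := supp_spec hK hne Pool.Agent.R172.Rotor.e3
      obtain ⟨-, hle2⟩ := supp_spec hK hne (-Pool.Agent.R172.Rotor.e3)
      have f1 := hle1 x hx
      have f2 := hle2 x hx
      rw [e1] at f1
      rw [e2] at f2
      rw [norm_neg, inner_neg_right, inner_neg_right] at f2
      rw [Pool.Agent.R172.Rotor.norm_e3] at f1 f2
      linarith
    · nlinarith
  · intro hx
    by_contra hxK
    obtain ⟨f, b, hfb, hb⟩ := geometric_hahn_banach_closed_point hconv hK.isClosed hxK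
    set u := (InnerProductSpace.toDual ℝ E3).symm f with hu
    have hfu : ∀ y, f y = ⟪y, u⟫ := by
      intro y
      rw [real_inner_comm, hu, InnerProductSpace.toDual_symm_apply]
    obtain ⟨⟨y, hy, hye⟩, -⟩ := supp_spec hK hne u
    have h1 := hfb y hy
    rw [hfu, ← hye, h] at h1
    rw [hfu] at hb
    have h2 : ⟪x, u⟫ = ⟪a, u⟫ + ⟪x - a, u⟫ := by rw [inner_sub_left]; ring
    have h3 : ⟪x - a, u⟫ ≤ ‖x - a‖ * ‖u‖ := real_inner_le_norm _ _
    have h4 : ‖x - a‖ * ‖u‖ ≤ r * ‖u‖ := mul_le_mul_of_nonneg_right hx (norm_nonneg _)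
    linarith

/-! ### The three outer normals of the prism -/

section Normals

variable {P : Fin 3 → E3}

/-- The (unnormalised) outer normal of the face opposite to `P i`: the vector from `P i` to the
centroid. -/
noncomputable def nrm (P : Fin 3 → E3) (i : Fin 3) : E3 := P (i + 1) + P (i + 2) - (2 : ℝ) • P i

theorem nrm_sum (P : Fin 3 → E3) : nrm P 0 + nrm P 1 + nrm P 2 = 0 := by
  unfold nrm
  have e1 : (0 : Fin 3) + 1 = 1 := rfl
  have e2 : (0 : Fin 3) + 2 = 2 := rfl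
  have e3 : (1 : Fin 3) + 1 = 2 := rfl
  have e4 : (1 : Fin 3) + 2 = 0 := rfl
  have e5 : (2 : Fin 3) + 1 = 0 := rfl
  have e6 : (2 : Fin 3) + 2 = 1 := rfl
  rw [e1, e2, e3, e4, e5, e6]
  module

theorem nrm_two (h : IsEquilateral P) (i : Fin 3) : nrm P i 2 = 0 := by
  unfold nrm
  simp [h.1]

/-- inner product of two edge vectors leaving the same vertex -/
theorem edge_inner {s : ℝ} (hs : ∀ i j, i ≠ j → dist (P i) (P j) = s) (i j k : Fin 3)
    (hij : i ≠ j) (hik : i ≠ k) (hjk : j ≠ k) : ⟪P j - P i, P k - P i⟫ = s ^ 2 / 2 := by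
  have h1 : ‖P j - P i‖ ^ 2 = s ^ 2 := by rw [← dist_eq_norm, hs j i hij.symm]
  have h2 : ‖P k - P i‖ ^ 2 = s ^ 2 := by rw [← dist_eq_norm, hs k i hik.symm]
  have h3 : ‖(P j - P i) - (P k - P i)‖ ^ 2 = s ^ 2 := by
    rw [sub_sub_sub_cancel_right, ← dist_eq_norm, hs j k hjk]
  rw [norm_sub_sq_real, h1, h2] at h3
  linarith

theorem nrm_eq (P : Fin 3 → E3) (i : Fin 3) :
    nrm P i = (P (i + 1) - P i) + (P (i + 2) - P i) := by
  unfold nrm
  module

theorem idx (i : Fin 3) : i ≠ i + 1 ∧ i ≠ i + 2 ∧ i + 1 ≠ i + 2 ∧ i + 1 + 1 = i + 2 ∧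
    i + 1 + 2 = i ∧ i + 2 + 1 = i ∧ i + 2 + 2 = i + 1 := by
  fin_cases i <;> decide

theorem idx' (i j : Fin 3) : j = i ∨ j = i + 1 ∨ j = i + 2 := by
  revert i j; decide

theorem edge_norm {s : ℝ} (hs : ∀ i j, i ≠ j → dist (P i) (P j) = s) (i j : Fin 3)
    (hij : i ≠ j) : ⟪P j - P i, P j - P i⟫ = s ^ 2 := by
  rw [real_inner_self_eq_norm_sq, ← dist_eq_norm, hs j i hij.symm]

theorem nrm_norm {s : ℝ} (hs : ∀ i j, i ≠ j → dist (P i) (P j) = s) (i : Fin 3) :
    ⟪nrm P i, nrm P i⟫ = 3 * s ^ 2 := by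
  obtain ⟨h1, h2, h3, -⟩ := idx i
  rw [nrm_eq, inner_add_left, inner_add_right, inner_add_right,
    edge_norm hs i _ h1, edge_norm hs i _ h2, edge_inner hs i _ _ h1 h2 h3,
    edge_inner hs i _ _ h2 h1 h3.symm]
  ring

/-- For `x` in the plane of the triangle written relative to the vertex `P (i+1)`. -/
theorem nrm_inner_vertex {s : ℝ} (hs : ∀ i j, i ≠ j → dist (P i) (P j) = s) (i : Fin 3) :
    ⟪P (i + 1) - P i, nrm P i⟫ = 3 / 2 * s ^ 2 ∧ ⟪P (i + 2) - P i, nrm P i⟫ = 3 / 2 * s ^ 2 := by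
  obtain ⟨h1, h2, h3, -⟩ := idx i
  constructor
  · rw [nrm_eq, inner_add_right, edge_norm hs i _ h1, edge_inner hs i _ _ h1 h2 h3]
    ring
  · rw [nrm_eq, inner_add_right, edge_norm hs i _ h2, edge_inner hs i _ _ h2 h1 h3.symm]
    ring

theorem nrm_inner {s : ℝ} (hs : ∀ i j, i ≠ j → dist (P i) (P j) = s) :
    ⟪nrm P 0, nrm P 1⟫ = -(3 / 2) * s ^ 2 := by
  have h2 : nrm P 2 = -(nrm P 0 + nrm P 1) := by
    have := nrm_sum P
    rw [eq_neg_iff_add_eq_zero, add_comm]
    exact this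
  have h := nrm_norm hs 2
  rw [h2, inner_neg_neg, inner_add_left, inner_add_right, inner_add_right,
    nrm_norm hs 0, nrm_norm hs 1, real_inner_comm (nrm P 0) (nrm P 1)] at h
  linarith

/-- Support value of the prism in the direction `nrm P i`. -/
noncomputable def sval (P : Fin 3 → E3) (i : Fin 3) : ℝ := ⟪P (i + 1), nrm P i⟫

theorem inner_cyl {n x y : E3} (hn : n 2 = 0) (h0 : x 0 = y 0) (h1 : x 1 = y 1) :
    ⟪x, n⟫ = ⟪y, n⟫ := by
  simp only [PiLp.inner_apply, Fin.sum_univ_three, hn, h0, h1]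
  simp

theorem prism_le (h : IsEquilateral P) (i : Fin 3) {x : E3} (hx : x ∈ prism P) :
    ⟪x, nrm P i⟫ ≤ sval P i := by
  obtain ⟨y, hy, h0, h1⟩ := hx
  rw [inner_cyl (nrm_two h i) h0 h1]
  obtain ⟨-, s, hs0, hs⟩ := h
  have hconv : Convex ℝ {z : E3 | ⟪z, nrm P i⟫ ≤ sval P i} := by
    have : IsLinearMap ℝ (fun z : E3 => ⟪z, nrm P i⟫) :=
      { map_add := fun a b => inner_add_left _ _ _
        map_smul := fun c a => by rw [real_inner_smul_left, smul_eq_mul] }
    exact convex_halfSpace_le this _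
  have hsub : range P ⊆ {z : E3 | ⟪z, nrm P i⟫ ≤ sval P i} := by
    rintro _ ⟨j, rfl⟩
    obtain ⟨h1, h2, h3, -⟩ := idx i
    obtain ⟨g1, g2⟩ := nrm_inner_vertex hs i
    rw [inner_sub_left] at g1 g2
    have hj : j = i ∨ j = i + 1 ∨ j = i + 2 := idx' i j
    change ⟪P j, nrm P i⟫ ≤ ⟪P (i + 1), nrm P i⟫
    rcases hj with rfl | rfl | rfl
    · nlinarith
    · exact le_rfl
    · linarith
  exact convexHull_min hsub hconv hy

theorem face_eq (h : IsEquilateral P) (i : Fin 3) {x : E3} (hx : x ∈ face P i) :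
    ⟪x, nrm P i⟫ = sval P i := by
  obtain ⟨y, hy, h0, h1⟩ := hx
  rw [inner_cyl (nrm_two h i) h0 h1]
  obtain ⟨-, s, hs0, hs⟩ := h
  obtain ⟨a, b, ha, hb, hab, rfl⟩ := hy
  obtain ⟨g1, g2⟩ := nrm_inner_vertex hs i
  rw [inner_sub_left] at g1 g2
  unfold sval
  rw [inner_add_left, real_inner_smul_left, real_inner_smul_left]
  have : ⟪P (i + 2), nrm P i⟫ = ⟪P (i + 1), nrm P i⟫ := by linarith
  rw [this, ← add_mul, hab, one_mul]

end Normals

/-! ### The theorem -/

theorem supp_sum {P : Fin 3 → E3} (hP : IsEquilateral P) {K : Set E3} (hK : IsCompact K)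
    (hne : K.Nonempty) (hrot : IsRotor P K) : ∃ C : ℝ, ∀ u v : E3, ‖u‖ = 1 → ‖v‖ = 1 →
      ⟪u, v⟫ = -1/2 → supp K u + supp K v + supp K (-u - v) = C := by
  have hP' := hP
  obtain ⟨-, s, hs0, hs⟩ := hP'
  set r : ℝ := √3 * s with hr
  have hrpos : 0 < r := by positivity
  have hr2 : r ^ 2 = 3 * s ^ 2 := by rw [hr, mul_pow, Real.sq_sqrt (by norm_num)]
  refine ⟨(sval P 0 + sval P 1 + sval P 2) / r, fun u v hu hv huv => ?_⟩
  have hn : ∀ i, ‖nrm P i‖ = r := by
    intro i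
    have := nrm_norm hs i
    rw [real_inner_self_eq_norm_sq, ← hr2] at this
    exact (pow_left_inj₀ (norm_nonneg _) hrpos.le two_ne_zero).mp this
  have hunit : ∀ i, ‖r⁻¹ • nrm P i‖ = 1 := by
    intro i
    rw [norm_smul, hn, norm_inv, Real.norm_of_nonneg hrpos.le, inv_mul_cancel₀ hrpos.ne']
  obtain ⟨ρ, hρ, hρu, hρv⟩ := exists_rotation (u := u) (v := v) (n := r⁻¹ • nrm P 0)
    (m := r⁻¹ • nrm P 1) hu hv (hunit 0) (hunit 1)
    (by
      rw [huv, real_inner_smul_left, real_inner_smul_right, nrm_inner hs]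
      have : s ^ 2 = r ^ 2 / 3 := by rw [hr2]; ring
      rw [this]
      field_simp)
    (by simp [nrm_two hP]) (by simp [nrm_two hP])
  have hρw : ρ (-u - v) = r⁻¹ • nrm P 2 := by
    rw [map_sub, map_neg, hρu, hρv]
    have := nrm_sum P
    have h2 : nrm P 2 = -(nrm P 0 + nrm P 1) := by
      rw [eq_neg_iff_add_eq_zero, add_comm]
      exact this
    rw [h2]
    module
  obtain ⟨t, hin, hmeet⟩ := hrot ρ hρ
  have key : ∀ (i : Fin 3) (w : E3), ρ w = r⁻¹ • nrm P i →
      supp K w = r⁻¹ * (sval P i - ⟪t, nrm P i⟫) := by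
    intro i w hw
    have hx : ∀ x : E3, ⟪x, w⟫ = r⁻¹ * (⟪ρ x + t, nrm P i⟫ - ⟪t, nrm P i⟫) := by
      intro x
      rw [inner_add_left, add_sub_cancel_right, ← ρ.inner_map_map x w, hw, real_inner_smul_right]
    refine supp_eq hK hne ?_ ?_
    · intro y hy
      rw [hx]
      have := prism_le hP i (hin (mem_image_of_mem _ hy))
      exact mul_le_mul_of_nonneg_left (by linarith) (by positivity)
    · obtain ⟨z, ⟨x, hxK, hxz⟩, hz⟩ := hmeet i
      refine ⟨x, hxK, ?_⟩
      have := face_eq hP i hz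
      rw [← hxz] at this
      rw [hx]
      simp only at this
      rw [this]
  rw [key 0 u hρu, key 1 v hρv, key 2 _ hρw]
  have hsum : ⟪t, nrm P 0⟫ + ⟪t, nrm P 1⟫ + ⟪t, nrm P 2⟫ = 0 := by
    rw [← inner_add_right, ← inner_add_right, nrm_sum, inner_zero_right]
  field_simp
  linarith

/-- **Every rotor in a regular triangular prism is a ball.** -/
theorem result (P : Fin 3 → E3) (hP : IsEquilateral P) (K : Set E3) (hK : IsConvexBody K)
    (hrot : IsRotor P K) : ∃ (a : E3) (r : ℝ), 0 < r ∧ K = closedBall a r := by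
  obtain ⟨hconv, hcomp, hint⟩ := hK
  have hne : K.Nonempty := hint.mono interior_subset
  obtain ⟨C, hC⟩ := supp_sum hP hcomp hne hrot
  have hz : Pool.Agent.R172.Rotor.Zonal (fun x => supp K x - C / 3 * ‖x‖) :=
    { cont := by
        have := supp_continuous hcomp hne
        fun_prop
      homog := by
        intro t ht x
        rw [supp_homog hcomp hne t ht, norm_smul, Real.norm_of_nonneg ht]
        ring
      triple := by
        intro u v hu hv huv
        have hw : ‖-u - v‖ = 1 := by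
          have h1 : ‖-u - v‖ ^ 2 = 1 := by
            have : -u - v = -(u + v) := by abel
            rw [this, norm_neg, norm_add_sq_real, hu, hv, huv]
            norm_num
          nlinarith [norm_nonneg (-u - v)]
        have := hC u v hu hv huv
        rw [hu, hv, hw]
        linarith }
  obtain ⟨a, ha⟩ := Pool.Agent.R172.Rotor.zonal_linear hz
  have hball : K = closedBall a (C / 3) := by
    refine eq_closedBall hconv hcomp hne (fun u => ?_)
    have := ha u
    linarith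
  refine ⟨a, C / 3, ?_, hball⟩
  by_contra hneg
  push Not at hneg
  have hsub : K ⊆ {a} := by
    rw [hball]
    intro x hx
    rw [mem_closedBall] at hx
    exact dist_le_zero.mp (hx.trans hneg)
  have h1 : (interior ({a} : Set E3)).Nonempty := hint.mono (interior_mono hsub)
  rw [interior_singleton] at h1
  exact Set.not_nonempty_empty h1

end Pool.Agent.Results.MP_c2e62a_gt.TriangularPrismRotor
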